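import Mathlib
import Pool.Agent.W630.LT.Alg

/-! LT-QUAT: real 4x4 loops via quaternions. -/

set_option autoImplicit false

open scoped ContDiff Matrix Topology
open Set MeasureTheory

namespace Pool.Agent.W366.LT

open Pool.Agent.W630.LT

/-- complexification of a real loop -/
theorem lpC {ι : Type} [Fintype ι] [DecidableEq ι] {g : R3 → Matrix ι ι ℝ} (hg : LpR g) :
    Lp (toC g) := by
  refine ⟨fun i j => ?_, fun k s => ?_, fun s => ?_⟩
  · exact Complex.ofRealCLM.contDiff.comp (hg.smooth i j)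
  · show (g (s + Pi.single k 1)).map Complex.ofReal = (g s).map Complex.ofReal
    rw [hg.per k s]
  · have h1 : (Pool.Agent.W630.LT.toC g s).det = ((g s).det : ℂ) := by
      have := (RingHom.map_det Complex.ofRealHom (g s)).symm
      exact this
    rw [h1]
    exact Complex.ofReal_ne_zero.mpr (hg.inv s)

/-- index equivalence -/
def e1 (N : ℕ) : Unit ⊕ Fin N ≃ Fin (N + 1) where
  toFun := Sum.elim (fun _ => 0) Fin.succ
  invFun := Fin.cases (Sum.inl ()) Sum.inr
  left_inv := by rintro (x | x) <;> simp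
  right_inv := by intro x; refine Fin.cases ?_ ?_ x <;> simp

/-- removal of the first row and column -/
theorem red {N : ℕ} {R : R3 → Matrix (Fin (N + 1)) (Fin (N + 1)) ℝ} (hR : LpR R)
    (h0 : ∀ s (i : Fin N), R s i.succ 0 = 0) :
    LpR (fun s => (R s).submatrix Fin.succ Fin.succ) ∧
      W (toC R) = W (toC fun s => (R s).submatrix Fin.succ Fin.succ) := by
  have hblk : ∀ s, (R s).submatrix (e1 N) (e1 N) = Matrix.fromBlocks
      (Matrix.of fun _ _ : Unit => R s 0 0) (Matrix.of fun (_ : Unit) j => R s 0 (Fin.succ j)) 0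
      ((R s).submatrix Fin.succ Fin.succ) := by
    intro s
    ext i j
    rcases i with i | i <;> rcases j with j | j
    · rfl
    · rfl
    · exact h0 s i
    · rfl
  have hdet : ∀ s, (R s).det = R s 0 0 * ((R s).submatrix Fin.succ Fin.succ).det := by
    intro s
    rw [← Matrix.det_submatrix_equiv_self (e1 N) (R s), hblk, Matrix.det_fromBlocks_zero₂₁,
      Matrix.det_unique]
    rfl
  have hR' : LpR (fun s => (R s).submatrix Fin.succ Fin.succ) := by
    refine ⟨fun i j => hR.smooth _ _, fun k s => ?_, fun s h => ?_⟩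
    · show (R (s + Pi.single k 1)).submatrix Fin.succ Fin.succ = _
      rw [hR.per k s]
    · have h1 := hR.inv s
      rw [hdet s, h, mul_zero] at h1
      exact h1 rfl
  refine ⟨hR', ?_⟩
  rw [← idx (Fin (N + 1)) (Unit ⊕ Fin N) (e1 N) (toC R)]
  have hblkC : (fun s => (toC R s).submatrix (e1 N) (e1 N)) = fun s => Matrix.fromBlocks
      (Matrix.diagonal (fun _ : Unit => (R s 0 0 : ℂ)))
      (Matrix.of fun (_ : Unit) j => (R s 0 (Fin.succ j) : ℂ)) 0
      (toC (fun s => (R s).submatrix Fin.succ Fin.succ) s) := by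
    funext s
    ext i j
    rcases i with i | i <;> rcases j with j | j
    · simp [toC, e1, Matrix.diagonal]
    · rfl
    · show ((R s i.succ 0 : ℝ) : ℂ) = 0
      rw [h0 s i, Complex.ofReal_zero]
    · rfl
  rw [hblkC, blk]
  · rw [diag, zero_add]
  · refine ⟨fun i j => ?_, fun k s => ?_, fun s => ?_⟩
    · simp only [Matrix.diagonal_apply]
      rcases i with ⟨⟩
      rcases j with ⟨⟩
      simp only [if_true]
      exact Complex.ofRealCLM.contDiff.comp (hR.smooth 0 0)
    · show Matrix.diagonal (fun _ : Unit => (R (s + Pi.single k 1) 0 0 : ℂ)) = _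
      rw [hR.per k s]
    · rw [Matrix.det_diagonal]
      simp only [Finset.univ_unique, Finset.prod_const, Finset.card_singleton, pow_one]
      refine Complex.ofReal_ne_zero.mpr fun h => ?_
      have h1 := hR.inv s
      rw [hdet s, h, zero_mul] at h1
      exact h1 rfl
  · exact lpC hR'
  · intro i j
    exact Complex.ofRealCLM.contDiff.comp (hR.smooth _ _)
  · intro k s
    show (Matrix.of fun (_ : Unit) j => (R (s + Pi.single k 1) 0 (Fin.succ j) : ℂ)) = _
    rw [hR.per k s]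

/-- left multiplication by a quaternion -/
def LL (a : Fin 4 → ℝ) : Matrix (Fin 4) (Fin 4) ℝ :=
  !![a 0, -a 1, -a 2, -a 3; a 1, a 0, -a 3, a 2; a 2, a 3, a 0, -a 1; a 3, -a 2, a 1, a 0]

/-- the square of the norm -/
def nq (a : Fin 4 → ℝ) : ℝ := a 0 ^ 2 + a 1 ^ 2 + a 2 ^ 2 + a 3 ^ 2

theorem nq_pos {a : Fin 4 → ℝ} (ha : a ≠ 0) : 0 < nq a := by
  by_contra h
  have h0 : nq a ≤ 0 := not_lt.mp h
  unfold nq at h0
  apply ha
  funext i
  fin_cases i
  · show a 0 = 0
    exact pow_eq_zero_iff (two_ne_zero) |>.mp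
      (le_antisymm (by nlinarith [sq_nonneg (a 1), sq_nonneg (a 2), sq_nonneg (a 3)]) (sq_nonneg _))
  · show a 1 = 0
    exact pow_eq_zero_iff (two_ne_zero) |>.mp
      (le_antisymm (by nlinarith [sq_nonneg (a 0), sq_nonneg (a 2), sq_nonneg (a 3)]) (sq_nonneg _))
  · show a 2 = 0
    exact pow_eq_zero_iff (two_ne_zero) |>.mp
      (le_antisymm (by nlinarith [sq_nonneg (a 1), sq_nonneg (a 0), sq_nonneg (a 3)]) (sq_nonneg _))
  · show a 3 = 0
    exact pow_eq_zero_iff (two_ne_zero) |>.mp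
      (le_antisymm (by nlinarith [sq_nonneg (a 1), sq_nonneg (a 2), sq_nonneg (a 0)]) (sq_nonneg _))

theorem LL_mul (a : Fin 4 → ℝ) : LL a * (LL a)ᵀ = nq a • 1 := by
  ext i j
  fin_cases i <;> fin_cases j <;>
    simp [LL, nq, Matrix.mul_apply, Fin.sum_univ_succ] <;> ring

theorem LL_mul' (a : Fin 4 → ℝ) : (LL a)ᵀ * LL a = nq a • 1 := by
  ext i j
  fin_cases i <;> fin_cases j <;>
    simp [LL, nq, Matrix.mul_apply, Fin.sum_univ_succ] <;> ring

theorem LL_col (a : Fin 4 → ℝ) (i : Fin 4) : LL a i 0 = a i := by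
  fin_cases i <;> simp [LL]

theorem LL_det {a : Fin 4 → ℝ} (ha : a ≠ 0) : (LL a).det ≠ 0 := by
  intro h
  have h1 := congrArg Matrix.det (LL_mul a)
  rw [Matrix.det_mul, h, zero_mul, Matrix.det_smul, Matrix.det_one, mul_one] at h1
  exact (pow_pos (nq_pos ha) _).ne h1

theorem lpR_LL {u : R3 → Fin 4 → ℝ} (hu : Vp u) : LpR (fun s => LL (u s)) := by
  have hs : ∀ i, ContDiff ℝ ∞ (fun s => u s i) := fun i => contDiff_pi.mp hu.smooth i
  refine ⟨fun i j => ?_, fun k s => ?_, fun s => LL_det (hu.ne s)⟩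
  · fin_cases i <;> fin_cases j <;> simp only [LL, Matrix.of_apply, Matrix.cons_val', Matrix.cons_val_zero, Matrix.cons_val_one, Matrix.cons_val, Fin.zero_eta, Fin.mk_one, Fin.reduceFinMk] <;>
      first | exact hs _ | exact (hs _).neg
  · show LL (u (s + Pi.single k 1)) = _
    rw [hu.per k s]

theorem lp_QQ {u : R3 → Fin 4 → ℝ} (hu : Vp u) : Lp (QQ u) := by
  have hs : ∀ i, ContDiff ℝ ∞ (fun s => (u s i : ℂ)) := fun i =>
    Complex.ofRealCLM.contDiff.comp (contDiff_pi.mp hu.smooth i)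
  refine ⟨fun i j => ?_, fun k s => ?_, fun s => ?_⟩
  · fin_cases i <;> fin_cases j
    · exact (hs 0).add ((hs 1).mul contDiff_const)
    · exact (hs 2).add ((hs 3).mul contDiff_const)
    · exact (hs 2).neg.add ((hs 3).mul contDiff_const)
    · exact (hs 0).sub ((hs 1).mul contDiff_const)
  · show Q (u (s + Pi.single k 1)) = _
    rw [hu.per k s]
    rfl
  · have h1 : (QQ u s).det = ((nq (u s) : ℝ) : ℂ) := by
      simp only [QQ, Q, Matrix.det_fin_two_of, nq]
      push_cast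
      linear_combination (-(u s 1 : ℂ) ^ 2 - (u s 3 : ℂ) ^ 2) * Complex.I_sq
    rw [h1]
    exact Complex.ofReal_ne_zero.mpr (nq_pos (hu.ne s)).ne'

/-- index equivalence -/
def e2 : Fin 2 ⊕ Fin 2 ≃ Fin 4 := (finSumFinEquiv : Fin 2 ⊕ Fin 2 ≃ Fin (2 + 2))

/-- the intertwining matrix -/
noncomputable def TT : Matrix (Fin 2 ⊕ Fin 2) (Fin 2 ⊕ Fin 2) ℂ :=
  Matrix.fromBlocks !![1, Complex.I; 0, 0] !![0, 0; -1, Complex.I] !![0, 0; 1, -Complex.I]
    !![1, Complex.I; 0, 0]

/-- its inverse up to the factor two -/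
noncomputable def TT' : Matrix (Fin 2 ⊕ Fin 2) (Fin 2 ⊕ Fin 2) ℂ :=
  Matrix.fromBlocks !![1, 0; -Complex.I, 0] !![0, 1; 0, Complex.I] !![0, -1; 0, -Complex.I]
    !![1, 0; -Complex.I, 0]

theorem TT_mul : TT * TT' = (2 : ℂ) • 1 := by
  unfold TT TT'
  rw [Matrix.fromBlocks_multiply, ← Matrix.fromBlocks_one, Matrix.fromBlocks_smul]
  congr 1 <;>
  · ext i j
    fin_cases i <;> fin_cases j <;> simp <;> norm_num

theorem TT_det : TT.det ≠ 0 := by
  intro h
  have h1 := congrArg Matrix.det TT_mul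
  rw [Matrix.det_mul, h, zero_mul, Matrix.det_smul, Matrix.det_one, mul_one] at h1
  exact (pow_ne_zero _ two_ne_zero) h1.symm

theorem LL_blk (a : Fin 4 → ℝ) : ((LL a).map Complex.ofReal).submatrix e2 e2 =
    Matrix.fromBlocks !![(a 0 : ℂ), -a 1; a 1, a 0] !![-(a 2 : ℂ), -a 3; -a 3, a 2]
      !![(a 2 : ℂ), a 3; a 3, -a 2] !![(a 0 : ℂ), -a 1; a 1, a 0] := by
  ext i j
  rcases i with i | i <;> rcases j with j | j <;> fin_cases i <;> fin_cases j <;>
    simp [e2, LL, finSumFinEquiv, Fin.castAdd, Fin.castLE, Fin.natAdd]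

theorem inter (a : Fin 4 → ℝ) : TT * ((LL a).map Complex.ofReal).submatrix e2 e2 =
    Matrix.fromBlocks (Q a) 0 0 (Q a) * TT := by
  rw [LL_blk]
  unfold TT Q
  rw [Matrix.fromBlocks_multiply, Matrix.fromBlocks_multiply]
  congr 1 <;>
  · ext i j
    fin_cases i <;> fin_cases j <;> simp <;> ring_nf <;> simp [Complex.I_sq]

theorem W_LL {u : R3 → Fin 4 → ℝ} (hu : Vp u) :
    W (toC fun s => LL (u s)) = 2 * W (QQ u) := by
  have hL := lpC (lpR_LL hu)
  have hQ := lp_QQ hu
  have hbl : Lp (fun s => Matrix.fromBlocks (QQ u s) 0 0 (QQ u s)) :=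
    Lp.blocks hQ hQ sm_zero (fun _ _ => rfl)
  have hsm : Sm (fun s => (toC (fun s => LL (u s)) s).submatrix e2 e2) :=
    fun i j => hL.smooth _ _
  rw [← idx (Fin 4) (Fin 2 ⊕ Fin 2) e2, ← W_const_mul hsm TT_det]
  have h1 : (fun s => TT * (toC (fun s => LL (u s)) s).submatrix e2 e2) =
      fun s => Matrix.fromBlocks (QQ u s) 0 0 (QQ u s) * TT := by
    funext s
    exact inter (u s)
  rw [h1, mul _ _ _ hbl (Lp.const TT_det), W_const, add_zero, W_blockDiag hQ hQ, two_mul]

theorem quat : S_QUAT := by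
  intro R hR
  set u : R3 → Fin 4 → ℝ := fun s i => R s i 0 with hu
  have hVp : Vp u := by
    refine ⟨contDiff_pi.mpr fun i => hR.smooth i 0, fun k s => ?_, fun s h => ?_⟩
    · simp only [hu, hR.per k s]
    · exact hR.inv s (Matrix.det_eq_zero_of_column_eq_zero 0 fun i => congrFun h i)
  have hL := lpR_LL hVp
  have hn : ∀ s, nq (u s) ≠ 0 := fun s => (nq_pos (hVp.ne s)).ne'
  have hnq : ContDiff ℝ ∞ (fun s => (nq (u s))⁻¹) := by
    refine ContDiff.inv ?_ hn
    unfold nq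
    have hs : ∀ i, ContDiff ℝ ∞ (fun s => u s i) := fun i => contDiff_pi.mp hVp.smooth i
    exact ((((hs 0).pow 2).add ((hs 1).pow 2)).add ((hs 2).pow 2)).add ((hs 3).pow 2)
  set R'' : R3 → Matrix (Fin 4) (Fin 4) ℝ := fun s => (nq (u s))⁻¹ • ((LL (u s))ᵀ * R s) with hR''
  have hprod : ∀ s, LL (u s) * R'' s = R s := by
    intro s
    rw [hR'']
    simp only
    rw [Matrix.mul_smul, ← Matrix.mul_assoc, LL_mul, Matrix.smul_mul, Matrix.one_mul, smul_smul,
      inv_mul_cancel₀ (hn s), one_smul]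
  have hLp : LpR R'' := by
    refine ⟨fun i j => ?_, fun k s => ?_, fun s h => ?_⟩
    · show ContDiff ℝ ∞ (fun s => (nq (u s))⁻¹ * ((LL (u s))ᵀ * R s) i j)
      refine hnq.mul ?_
      simp only [Matrix.mul_apply, Matrix.transpose_apply]
      exact ContDiff.sum fun l _ => (hL.smooth l i).mul (hR.smooth l j)
    · simp only [hR'', hVp.per k s, hR.per k s]
    · have h1 := hR.inv s
      rw [← hprod s, Matrix.det_mul, h, mul_zero] at h1
      exact h1 rfl
  have hcol : ∀ s (i : Fin 3), R'' s i.succ 0 = 0 := by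
    intro s i
    have h1 : ((LL (u s))ᵀ * R s) i.succ 0 = ((LL (u s))ᵀ * LL (u s)) i.succ 0 := by
      rw [Matrix.mul_apply, Matrix.mul_apply]
      refine Finset.sum_congr rfl fun j _ => ?_
      rw [LL_col]
    show (nq (u s))⁻¹ * ((LL (u s))ᵀ * R s) i.succ 0 = 0
    rw [h1, LL_mul', Matrix.smul_apply, Matrix.one_apply_ne (Fin.succ_ne_zero i), smul_zero,
      mul_zero]
  obtain ⟨h1, h2⟩ := red hLp hcol
  refine ⟨u, _, hVp, h1, ?_⟩
  rw [← h2, ← W_LL hVp, ← mul _ _ _ (lpC hL) (lpC hLp)]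
  congr 1
  funext s
  show (R s).map Complex.ofReal = (LL (u s)).map Complex.ofReal * (R'' s).map Complex.ofReal
  have h3 := (Matrix.map_mul (f := Complex.ofRealHom) (L := LL (u s)) (M := R'' s))
  rw [hprod s] at h3
  exact h3

end Pool.Agent.W366.LT
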