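import Mathlib
import Pool.Agent.W366.LT.Quat

/-! LT-AD: lifting SO(3) loops to quaternions. -/

set_option autoImplicit false

open scoped ContDiff Matrix Topology
open Set MeasureTheory

namespace Pool.Agent.W366.LT

open Pool.Agent.W630.LT

/-- four times the projection -/
def M4 (g : Matrix (Fin 3) (Fin 3) ℝ) : Matrix (Fin 4) (Fin 4) ℝ :=
  !![1 + g 0 0 + g 1 1 + g 2 2, g 2 1 - g 1 2, g 0 2 - g 2 0, g 1 0 - g 0 1;
     g 2 1 - g 1 2, 1 + g 0 0 - g 1 1 - g 2 2, g 0 1 + g 1 0, g 0 2 + g 2 0;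
     g 0 2 - g 2 0, g 0 1 + g 1 0, 1 - g 0 0 + g 1 1 - g 2 2, g 1 2 + g 2 1;
     g 1 0 - g 0 1, g 0 2 + g 2 0, g 1 2 + g 2 1, 1 - g 0 0 - g 1 1 + g 2 2]

theorem rank1 {g : Matrix (Fin 3) (Fin 3) ℝ} (h1 : gᵀ * g = 1) (h2 : g.det = 1) (i j k : Fin 4) :
    M4 g i i * M4 g j k = M4 g i j * M4 g i k := by
  have h3 : g * gᵀ = 1 := mul_eq_one_comm.mp h1
  have h4 : g.adjugate = gᵀ := by
    have h5 : g.adjugate * g = 1 := by rw [Matrix.adjugate_mul, h2, one_smul]
    calc g.adjugate = g.adjugate * (g * gᵀ) := by rw [h3, Matrix.mul_one]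
      _ = gᵀ := by rw [← Matrix.mul_assoc, h5, Matrix.one_mul]
  have a : ∀ i j, g.adjugate i j = gᵀ i j := fun i j => by rw [h4]
  have b : ∀ i j, (gᵀ * g) i j = (1 : Matrix (Fin 3) (Fin 3) ℝ) i j := fun i j => by rw [h1]
  have c : ∀ i j, (g * gᵀ) i j = (1 : Matrix (Fin 3) (Fin 3) ℝ) i j := fun i j => by rw [h3]
  have a00 := a 0 0
  have a01 := a 0 1
  have a02 := a 0 2
  have a10 := a 1 0
  have a11 := a 1 1
  have a12 := a 1 2
  have a20 := a 2 0
  have a21 := a 2 1
  have a22 := a 2 2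
  have b00 := b 0 0
  have b01 := b 0 1
  have b02 := b 0 2
  have b11 := b 1 1
  have b12 := b 1 2
  have b22 := b 2 2
  have c00 := c 0 0
  have c01 := c 0 1
  have c02 := c 0 2
  have c11 := c 1 1
  have c12 := c 1 2
  have c22 := c 2 2
  clear a b c h4 h3 h1 h2
  simp only [Matrix.adjugate_fin_three, Matrix.transpose_apply, Matrix.mul_apply,
    Fin.sum_univ_three, Matrix.of_apply, Matrix.cons_val', Matrix.cons_val_zero,
    Matrix.cons_val_one, Matrix.cons_val, Matrix.one_apply_eq, Matrix.one_apply_ne, ne_eq,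
    Fin.isValue, not_false_eq_true, Fin.reduceEq] at *
  fin_cases i <;> fin_cases j <;> fin_cases k <;>
    simp only [M4, Matrix.of_apply, Matrix.cons_val', Matrix.cons_val_zero,
      Matrix.cons_val_one, Matrix.cons_val, Fin.zero_eta, Fin.mk_one, Fin.reduceFinMk,
      Fin.isValue] <;> linarith

theorem M4_symm (g : Matrix (Fin 3) (Fin 3) ℝ) (i j : Fin 4) : M4 g i j = M4 g j i := by
  fin_cases i <;> fin_cases j <;> rfl

/-- `q` is a lift of `g` -/
def Lf (g : Matrix (Fin 3) (Fin 3) ℝ) (q : Fin 4 → ℝ) : Prop := ∀ i j, M4 g i j = 4 * (q i * q j)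

theorem M4_trace (g : Matrix (Fin 3) (Fin 3) ℝ) :
    M4 g 0 0 + M4 g 1 1 + M4 g 2 2 + M4 g 3 3 = 4 := by
  simp only [M4, Matrix.of_apply, Matrix.cons_val', Matrix.cons_val_zero,
      Matrix.cons_val_one, Matrix.cons_val, Fin.isValue]
  ring

theorem Lf.nq {g : Matrix (Fin 3) (Fin 3) ℝ} {q : Fin 4 → ℝ} (h : Lf g q) : nq q = 1 := by
  have h1 := M4_trace g
  rw [h 0 0, h 1 1, h 2 2, h 3 3] at h1
  unfold W366.LT.nq
  linarith

theorem Lf.neg {g : Matrix (Fin 3) (Fin 3) ℝ} {q : Fin 4 → ℝ} (h : Lf g q) : Lf g (-q) := by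
  intro i j
  rw [h i j, Pi.neg_apply, Pi.neg_apply, neg_mul_neg]

theorem dot4 (a b : Fin 4 → ℝ) : a ⬝ᵥ b = a 0 * b 0 + a 1 * b 1 + a 2 * b 2 + a 3 * b 3 := by
  rw [dotProduct, Fin.sum_univ_four]

theorem nq_dot (a : Fin 4 → ℝ) : nq a = a ⬝ᵥ a := by
  rw [dot4, nq]; ring

theorem exists_lift {g : Matrix (Fin 3) (Fin 3) ℝ} (h1 : gᵀ * g = 1) (h2 : g.det = 1) :
    ∃ q, Lf g q := by
  obtain ⟨i, hi⟩ : ∃ i, 0 < M4 g i i := by
    by_contra hcon
    push Not at hcon
    have h3 := M4_trace g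
    linarith [hcon 0, hcon 1, hcon 2, hcon 3]
  have hs := Real.sqrt_pos.mpr hi
  have hs2 : Real.sqrt (M4 g i i) * Real.sqrt (M4 g i i) = M4 g i i := Real.mul_self_sqrt hi.le
  refine ⟨fun j => M4 g i j / (2 * Real.sqrt (M4 g i i)), fun j k => ?_⟩
  have h4 := rank1 h1 h2 i j k
  rw [div_mul_div_comm, ← h4]
  have h5 : 2 * Real.sqrt (M4 g i i) * (2 * Real.sqrt (M4 g i i)) =
      4 * (Real.sqrt (M4 g i i) * Real.sqrt (M4 g i i)) := by ring
  rw [h5, hs2]
  field_simp

theorem Lf.eq {g : Matrix (Fin 3) (Fin 3) ℝ} {q q' : Fin 4 → ℝ} (h : Lf g q) (h' : Lf g q') :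
    q' = (q ⬝ᵥ q') • q ∧ (q ⬝ᵥ q') ^ 2 = 1 := by
  have hpp : ∀ i j, q i * q j = q' i * q' j := fun i j => by
    have h1 := h i j
    rw [h' i j] at h1
    linarith
  have hn := h.nq
  have hn' := h'.nq
  have key : q' = (q ⬝ᵥ q') • q := by
    funext i
    rw [Pi.smul_apply, smul_eq_mul, dot4]
    have h0 := hpp 0 i
    have h1 := hpp 1 i
    have h2 := hpp 2 i
    have h3 := hpp 3 i
    unfold W366.LT.nq at hn'
    linear_combination (-(q' i)) * hn' - q' 0 * h0 - q' 1 * h1 - q' 2 * h2 - q' 3 * h3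
  refine ⟨key, ?_⟩
  rw [nq_dot] at hn hn'
  conv_lhs at hn' => rw [key, smul_dotProduct, dotProduct_smul, hn]
  simp only [smul_eq_mul, mul_one] at hn'
  rw [pow_two]
  exact hn'

/-- the rotation matrix of a quaternion -/
def Ph (q : Fin 4 → ℝ) : Matrix (Fin 3) (Fin 3) ℝ :=
  !![q 0 ^ 2 + q 1 ^ 2 - q 2 ^ 2 - q 3 ^ 2, 2 * (q 1 * q 2 - q 0 * q 3), 2 * (q 1 * q 3 + q 0 * q 2);
     2 * (q 1 * q 2 + q 0 * q 3), q 0 ^ 2 - q 1 ^ 2 + q 2 ^ 2 - q 3 ^ 2, 2 * (q 2 * q 3 - q 0 * q 1);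
     2 * (q 1 * q 3 - q 0 * q 2), 2 * (q 2 * q 3 + q 0 * q 1), q 0 ^ 2 - q 1 ^ 2 - q 2 ^ 2 + q 3 ^ 2]

theorem Lf.ph {g : Matrix (Fin 3) (Fin 3) ℝ} {q : Fin 4 → ℝ} (h : Lf g q) : g = Ph q := by
  have h00 := h 0 0
  have h01 := h 0 1
  have h02 := h 0 2
  have h03 := h 0 3
  have h11 := h 1 1
  have h12 := h 1 2
  have h13 := h 1 3
  have h22 := h 2 2
  have h23 := h 2 3
  have h33 := h 3 3
  simp only [M4, Matrix.of_apply, Matrix.cons_val', Matrix.cons_val_zero,
      Matrix.cons_val_one, Matrix.cons_val, Fin.isValue] at *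
  ext i j
  fin_cases i <;> fin_cases j <;> simp only [Ph, Matrix.of_apply, Matrix.cons_val',
    Matrix.cons_val_zero, Matrix.cons_val_one, Matrix.cons_val, Fin.zero_eta, Fin.mk_one,
    Fin.reduceFinMk, Fin.isValue] <;> linarith

theorem qm0 (q c : Fin 4 → ℝ) : (LL q *ᵥ c) 0 = q 0 * c 0 - q 1 * c 1 - q 2 * c 2 - q 3 * c 3 := by
  rw [Matrix.mulVec, dotProduct, Fin.sum_univ_four]
  simp only [LL, Matrix.of_apply, Matrix.cons_val', Matrix.cons_val_zero, Matrix.cons_val_one,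
    Matrix.cons_val, Fin.isValue]
  ring

theorem qm1 (q c : Fin 4 → ℝ) : (LL q *ᵥ c) 1 = q 1 * c 0 + q 0 * c 1 - q 3 * c 2 + q 2 * c 3 := by
  rw [Matrix.mulVec, dotProduct, Fin.sum_univ_four]
  simp only [LL, Matrix.of_apply, Matrix.cons_val', Matrix.cons_val_zero, Matrix.cons_val_one,
    Matrix.cons_val, Fin.isValue]
  ring

theorem qm2 (q c : Fin 4 → ℝ) : (LL q *ᵥ c) 2 = q 2 * c 0 + q 3 * c 1 + q 0 * c 2 - q 1 * c 3 := by
  rw [Matrix.mulVec, dotProduct, Fin.sum_univ_four]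
  simp only [LL, Matrix.of_apply, Matrix.cons_val', Matrix.cons_val_zero, Matrix.cons_val_one,
    Matrix.cons_val, Fin.isValue]
  ring

theorem qm3 (q c : Fin 4 → ℝ) : (LL q *ᵥ c) 3 = q 3 * c 0 - q 2 * c 1 + q 1 * c 2 + q 0 * c 3 := by
  rw [Matrix.mulVec, dotProduct, Fin.sum_univ_four]
  simp only [LL, Matrix.of_apply, Matrix.cons_val', Matrix.cons_val_zero, Matrix.cons_val_one,
    Matrix.cons_val, Fin.isValue]
  ring

/-- product of quaternions -/
theorem Ph_mul (q c : Fin 4 → ℝ) : Ph (LL q *ᵥ c) = Ph q * Ph c := by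
  ext i j
  fin_cases i <;> fin_cases j <;> simp only [Ph, qm0, qm1, qm2, qm3, Matrix.mul_apply, Fin.sum_univ_three,
    Matrix.of_apply, Matrix.cons_val', Matrix.cons_val_zero, Matrix.cons_val_one, Matrix.cons_val,
    Fin.zero_eta, Fin.mk_one, Fin.reduceFinMk, Fin.isValue] <;> ring

theorem nq_mul (q c : Fin 4 → ℝ) : nq (LL q *ᵥ c) = nq q * nq c := by
  simp only [nq, qm0, qm1, qm2, qm3]
  ring

theorem Ph_det (q : Fin 4 → ℝ) : (Ph q).det = nq q ^ 3 := by
  rw [Matrix.det_fin_three]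
  simp only [Ph, nq, Matrix.of_apply, Matrix.cons_val', Matrix.cons_val_zero,
    Matrix.cons_val_one, Matrix.cons_val, Fin.isValue]
  ring

/-- right multiplication by a quaternion -/
def RR (a : Fin 4 → ℝ) : Matrix (Fin 4) (Fin 4) ℝ :=
  !![a 0, -a 1, -a 2, -a 3; a 1, a 0, a 3, -a 2; a 2, -a 3, a 0, a 1; a 3, a 2, -a 1, a 0]

/-- conjugation by a quaternion -/
def BB (a : Fin 4 → ℝ) : Matrix (Fin 4) (Fin 4) ℝ :=
  !![nq a, 0, 0, 0; 0, Ph a 0 0, Ph a 0 1, Ph a 0 2; 0, Ph a 1 0, Ph a 1 1, Ph a 1 2;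
    0, Ph a 2 0, Ph a 2 1, Ph a 2 2]

/-- conjugate quaternion -/
def cj (a : Fin 4 → ℝ) : Fin 4 → ℝ := ![a 0, -a 1, -a 2, -a 3]

/-- the conjugation -/
def KK : Matrix (Fin 4) (Fin 4) ℝ := !![1, 0, 0, 0; 0, -1, 0, 0; 0, 0, -1, 0; 0, 0, 0, -1]

theorem RR_BB (a : Fin 4 → ℝ) : RR a * BB a = nq a • LL a := by
  ext i j
  fin_cases i <;> fin_cases j <;> simp only [Ph, nq, RR, BB, LL, Matrix.mul_apply,
    Fin.sum_univ_four, Matrix.smul_apply, smul_eq_mul,
    Matrix.of_apply, Matrix.cons_val', Matrix.cons_val_zero, Matrix.cons_val_one, Matrix.cons_val,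
    Fin.zero_eta, Fin.mk_one, Fin.reduceFinMk, Fin.isValue] <;> ring

theorem RR_KK (a : Fin 4 → ℝ) : RR a = KK * (LL (cj a) * KK) := by
  ext i j
  fin_cases i <;> fin_cases j <;> simp only [RR, KK, LL, cj, Matrix.mul_apply, Fin.sum_univ_four,
    Matrix.of_apply, Matrix.cons_val', Matrix.cons_val_zero, Matrix.cons_val_one, Matrix.cons_val,
    Fin.zero_eta, Fin.mk_one, Fin.reduceFinMk, Fin.isValue] <;> ring

theorem KK_det : KK.det ≠ 0 := by
  have h : KK * KK = 1 := by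
    ext i j
    fin_cases i <;> fin_cases j <;> simp [KK, Matrix.mul_apply, Fin.sum_univ_four]
  intro h0
  have h1 := congrArg Matrix.det h
  rw [Matrix.det_mul, h0, Matrix.det_one, zero_mul] at h1
  exact zero_ne_one h1

theorem Q_cj (a : Fin 4 → ℝ) : Q (cj a) * Q a = (nq a : ℂ) • 1 := by
  ext i j
  fin_cases i <;> fin_cases j <;> simp [Q, cj, nq, Matrix.mul_apply, Fin.sum_univ_two] <;>
    ring_nf <;> simp [Complex.I_sq] <;> ring

theorem detC {ι : Type} [Fintype ι] [DecidableEq ι] {C : Matrix ι ι ℝ} (hC : C.det ≠ 0) :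
    (C.map Complex.ofReal).det ≠ 0 := by
  have h8 : (C.map Complex.ofReal).det = (C.det : ℂ) :=
    (RingHom.map_det Complex.ofRealHom C).symm
  rw [h8]
  exact Complex.ofReal_ne_zero.mpr hC

theorem mapC {ι : Type} [Fintype ι] [DecidableEq ι] (A B : Matrix ι ι ℝ) :
    (A * B).map Complex.ofReal = A.map Complex.ofReal * B.map Complex.ofReal :=
  Matrix.map_mul (f := Complex.ofRealHom) (L := A) (M := B)

theorem W_Ph {p : R3 → Fin 4 → ℝ} (hp : Vp p) (h1 : ∀ s, nq (p s) = 1) :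
    W (toC fun s => Ph (p s)) = 4 * W (QQ p) := by
  have hs : ∀ i, ContDiff ℝ ∞ (fun s => p s i) := fun i => contDiff_pi.mp hp.smooth i
  -- conjugate
  have hc : Vp (fun s => cj (p s)) := by
    refine ⟨contDiff_pi.mpr fun i => ?_, fun k s => ?_, fun s h => ?_⟩
    · fin_cases i
      · exact hs 0
      · exact (hs 1).neg
      · exact (hs 2).neg
      · exact (hs 3).neg
    · simp only [hp.per k s]
    · have h2 : nq (cj (p s)) = nq (p s) := by
        simp only [nq, cj, Matrix.cons_val_zero, Matrix.cons_val_one, Matrix.cons_val]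
        ring
      rw [h, h1] at h2
      simp [nq] at h2
  have hQc : W (QQ fun s => cj (p s)) + W (QQ p) = 0 := by
    rw [← mul _ _ _ (lp_QQ hc) (lp_QQ hp)]
    have h3 : (fun s => QQ (fun s => cj (p s)) s * QQ p s) = fun _ => 1 := by
      funext s
      show Q (cj (p s)) * Q (p s) = 1
      rw [Q_cj, h1, Complex.ofReal_one, one_smul]
    rw [h3, W_const]
  have hL := lpR_LL hp
  have hLc := lpR_LL hc
  -- right multiplication
  have hR : LpR (fun s => RR (p s)) := by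
    refine ⟨fun i j => ?_, fun k s => ?_, fun s => ?_⟩
    · fin_cases i <;> fin_cases j <;> simp only [RR, Matrix.of_apply, Matrix.cons_val',
        Matrix.cons_val_zero, Matrix.cons_val_one, Matrix.cons_val, Fin.zero_eta, Fin.mk_one,
        Fin.reduceFinMk] <;> first | exact hs _ | exact (hs _).neg
    · simp only [hp.per k s]
    · show (RR (p s)).det ≠ 0
      rw [RR_KK, Matrix.det_mul, Matrix.det_mul]
      exact mul_ne_zero KK_det (mul_ne_zero (hLc.inv s) KK_det)
  have hWR : W (toC fun s => RR (p s)) = 2 * W (QQ fun s => cj (p s)) := by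
    have h4 : (toC fun s => RR (p s)) = fun s => KK.map Complex.ofReal *
        (toC (fun s => LL (cj (p s))) s * KK.map Complex.ofReal) := by
      funext s
      show (RR (p s)).map Complex.ofReal = _
      rw [RR_KK, mapC, mapC]
      rfl
    have h5 := (lpC hLc).mul (Lp.const (detC KK_det))
    rw [h4, W_const_mul h5.smooth (detC KK_det), mul _ _ _ (lpC hLc) (Lp.const (detC KK_det)),
      W_const, add_zero, W_LL hc]
  have hPhs : ∀ i j, ContDiff ℝ ∞ (fun s => Ph (p s) i j) := by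
    intro i j
    fin_cases i <;> fin_cases j <;> simp only [Ph, Matrix.of_apply, Matrix.cons_val',
        Matrix.cons_val_zero, Matrix.cons_val_one, Matrix.cons_val, Fin.zero_eta, Fin.mk_one,
        Fin.reduceFinMk] <;> fun_prop (disch := exact hs _)
  have hBf : ∀ s, RR (p s) * BB (p s) = LL (p s) := fun s => by
    rw [RR_BB, h1, one_smul]
  have hB : LpR (fun s => BB (p s)) := by
    refine ⟨fun i j => ?_, fun k s => ?_, fun s h => ?_⟩
    · have hn : (fun s => nq (p s)) = fun _ => 1 := funext h1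
      fin_cases i <;> fin_cases j
      · show ContDiff ℝ ∞ (fun s => nq (p s))
        rw [hn]
        exact contDiff_const
      · exact contDiff_const
      · exact contDiff_const
      · exact contDiff_const
      · exact contDiff_const
      · exact hPhs 0 0
      · exact hPhs 0 1
      · exact hPhs 0 2
      · exact contDiff_const
      · exact hPhs 1 0
      · exact hPhs 1 1
      · exact hPhs 1 2
      · exact contDiff_const
      · exact hPhs 2 0
      · exact hPhs 2 1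
      · exact hPhs 2 2
    · simp only [hp.per k s]
    · have h6 := hL.inv s
      apply h6
      show (LL (p s)).det = 0
      rw [← hBf s, Matrix.det_mul, h, mul_zero]
  have hcol : ∀ s (i : Fin 3), BB (p s) i.succ 0 = 0 := by
    intro s i
    fin_cases i <;> rfl
  obtain ⟨-, h7⟩ := red hB hcol
  have h8 : (fun s => (BB (p s)).submatrix Fin.succ Fin.succ) = fun s => Ph (p s) := by
    funext s
    ext i j
    fin_cases i <;> fin_cases j <;> rfl
  rw [h8] at h7
  have h9 : W (toC fun s => RR (p s)) + W (toC fun s => BB (p s)) = W (toC fun s => LL (p s)) := by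
    rw [← mul _ _ _ (lpC hR) (lpC hB)]
    congr 1
    funext s
    show (RR (p s)).map Complex.ofReal * (BB (p s)).map Complex.ofReal =
      (LL (p s)).map Complex.ofReal
    rw [← mapC, hBf]
  rw [hWR, h7, W_LL hp] at h9
  linear_combination h9 - 2 * hQc

/-! ### the lift -/

theorem Lf.pos {g g' : Matrix (Fin 3) (Fin 3) ℝ} {q q' : Fin 4 → ℝ} (h : Lf g q) (h' : Lf g' q') :
    ∑ i, ∑ j, M4 g i j * M4 g' i j = 16 * (q ⬝ᵥ q') ^ 2 := by
  simp only [h _ _, h' _ _, Fin.sum_univ_four, dot4]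
  ring

/-- the chain of vectors -/
noncomputable def vk (O : R3 → Matrix (Fin 3) (Fin 3) ℝ) (q0 : Fin 4 → ℝ) (N : ℕ) :
    ℕ → R3 → Fin 4 → ℝ
  | 0, _ => q0
  | k + 1, s => M4 (O ((((k + 1 : ℕ) : ℝ) / (N : ℝ)) • s)) *ᵥ vk O q0 N k s

theorem M4_smooth {O : R3 → Matrix (Fin 3) (Fin 3) ℝ} (hO : ∀ i j, ContDiff ℝ ∞ (fun s => O s i j))
    (i j : Fin 4) : ContDiff ℝ ∞ (fun s => M4 (O s) i j) := by
  fin_cases i <;> fin_cases j <;> simp only [M4, Matrix.of_apply, Matrix.cons_val',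
        Matrix.cons_val_zero, Matrix.cons_val_one, Matrix.cons_val, Fin.zero_eta, Fin.mk_one,
        Fin.reduceFinMk] <;> fun_prop (disch := exact hO _ _)

theorem vk_smooth {O : R3 → Matrix (Fin 3) (Fin 3) ℝ} (hO : ∀ i j, ContDiff ℝ ∞ (fun s => O s i j))
    (q0 : Fin 4 → ℝ) (N k : ℕ) (i : Fin 4) : ContDiff ℝ ∞ (fun s => vk O q0 N k s i) := by
  induction k generalizing i with
  | zero => exact contDiff_const
  | succ k ih =>
    simp only [vk, Matrix.mulVec, dotProduct]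
    refine ContDiff.sum fun j _ => ?_
    refine ContDiff.mul ?_ (ih j)
    have hc : ContDiff ℝ ∞ (fun s : R3 => (((k + 1 : ℕ) : ℝ) / (N : ℝ)) • s) :=
      contDiff_id.const_smul _
    exact (M4_smooth hO i j).comp hc

theorem Lf.mulVec {g : Matrix (Fin 3) (Fin 3) ℝ} {q : Fin 4 → ℝ} (h : Lf g q) (v : Fin 4 → ℝ) :
    M4 g *ᵥ v = (4 * (q ⬝ᵥ v)) • q := by
  funext i
  simp only [Matrix.mulVec, dotProduct, h _ _, Fin.sum_univ_four, Pi.smul_apply, smul_eq_mul]
  ring

/-- the normalised vector -/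
noncomputable def nrm (v : Fin 4 → ℝ) : Fin 4 → ℝ := (Real.sqrt (nq v))⁻¹ • v

theorem nrm_smul {l : ℝ} (hl : 0 < l) {q : Fin 4 → ℝ} (hq : nq q = 1) : nrm (l • q) = q := by
  have h1 : nq (l • q) = l ^ 2 := by
    have : nq (l • q) = l ^ 2 * nq q := by
      simp only [nq, Pi.smul_apply, smul_eq_mul]
      ring
    rw [this, hq, mul_one]
  rw [nrm, h1, Real.sqrt_sq hl.le, smul_smul, inv_mul_cancel₀ hl.ne', one_smul]

theorem local_lift {O : R3 → Matrix (Fin 3) (Fin 3) ℝ} (hO : LpR O) (h1 : ∀ s, (O s)ᵀ * O s = 1)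
    (h2 : ∀ s, (O s).det = 1) {q0 : Fin 4 → ℝ} (hq0 : Lf (O 0) q0) (r : ℝ) :
    ∃ f : R3 → Fin 4 → ℝ, f 0 = q0 ∧ (∀ s, ‖s‖ < r → Lf (O s) (f s)) ∧
      ∀ s, ‖s‖ < r → ContDiffAt ℝ ∞ f s := by
  -- uniform continuity
  have hM : ∀ i j, Continuous (fun s => M4 (O s) i j) := fun i j =>
    (M4_smooth hO.smooth i j).continuous
  have hF : Continuous (fun z : R3 × R3 => ∑ i, ∑ j, M4 (O z.1) i j * M4 (O z.2) i j) :=
    continuous_finsetSum _ fun i _ => continuous_finsetSum _ fun j _ =>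
      ((hM i j).comp continuous_fst).mul ((hM i j).comp continuous_snd)
  have hK : IsCompact (Metric.closedBall (0 : R3) r ×ˢ Metric.closedBall (0 : R3) r) :=
    (isCompact_closedBall 0 r).prod (isCompact_closedBall 0 r)
  have hU := hK.uniformContinuousOn_of_continuous hF.continuousOn
  rw [Metric.uniformContinuousOn_iff] at hU
  obtain ⟨δ, hδ, hU⟩ := hU 16 (by norm_num)
  have hpos : ∀ s s' : R3, ‖s‖ ≤ r → ‖s'‖ ≤ r → dist s s' < δ → ∀ q q', Lf (O s) q →
      Lf (O s') q' → q ⬝ᵥ q' ≠ 0 := by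
    intro s s' hs hs' hss q q' hq hq' h0
    have h3 := hU (s, s) ⟨by simpa using hs, by simpa using hs⟩ (s, s')
      ⟨by simpa using hs, by simpa using hs'⟩ (by
        rw [Prod.dist_eq, dist_self]
        exact max_lt hδ hss)
    simp only at h3
    rw [hq.pos hq', hq.pos hq, h0, ← nq_dot, hq.nq, Real.dist_eq] at h3
    norm_num at h3
  obtain ⟨N, hN⟩ := exists_nat_gt (r / δ)
  -- N + 1 steps
  have hN1 : (0 : ℝ) < ((N + 1 : ℕ) : ℝ) := by positivity
  have hrN : r < δ * ((N + 1 : ℕ) : ℝ) := by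
    rw [div_lt_iff₀ hδ] at hN
    push_cast
    nlinarith
  have hchain : ∀ s : R3, ‖s‖ < r → ∀ k ≤ N + 1, ∃ (l : ℝ) (q : Fin 4 → ℝ), 0 < l ∧
      Lf (O (((k : ℝ) / ((N + 1 : ℕ) : ℝ)) • s)) q ∧ vk O q0 (N + 1) k s = l • q := by
    intro s hs k
    induction k with
    | zero =>
      intro _
      refine ⟨1, q0, one_pos, ?_, ?_⟩
      · rw [Nat.cast_zero, zero_div, zero_smul]; exact hq0
      · rw [one_smul]; rfl
    | succ k ih =>
      intro hk
      obtain ⟨l, q, hl, hq, hv⟩ := ih (by omega)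
      obtain ⟨q', hq'⟩ := exists_lift (h1 ((((k + 1 : ℕ) : ℝ) / ((N + 1 : ℕ) : ℝ)) • s)) (h2 _)
      have hsc : ∀ m : ℕ, m ≤ N + 1 → ‖((m : ℝ) / ((N + 1 : ℕ) : ℝ)) • s‖ ≤ r := by
        intro m hm
        have hm' : (m : ℝ) ≤ ((N + 1 : ℕ) : ℝ) := by exact_mod_cast hm
        rw [norm_smul, Real.norm_eq_abs, abs_of_nonneg (by positivity)]
        have h4 : (m : ℝ) / ((N + 1 : ℕ) : ℝ) ≤ 1 := (div_le_one hN1).mpr hm'
        calc (m : ℝ) / ((N + 1 : ℕ) : ℝ) * ‖s‖ ≤ 1 * ‖s‖ :=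
              mul_le_mul_of_nonneg_right h4 (norm_nonneg _)
          _ ≤ r := by rw [one_mul]; exact hs.le
      have hd : dist (((k : ℝ) / ((N + 1 : ℕ) : ℝ)) • s)
          ((((k + 1 : ℕ) : ℝ) / ((N + 1 : ℕ) : ℝ)) • s) < δ := by
        rw [dist_eq_norm, ← sub_smul, norm_smul]
        have h5 : (k : ℝ) / ((N + 1 : ℕ) : ℝ) - ((k + 1 : ℕ) : ℝ) / ((N + 1 : ℕ) : ℝ) =
            -(1 / ((N + 1 : ℕ) : ℝ)) := by
          push_cast
          ring
        rw [h5, norm_neg, Real.norm_eq_abs, abs_of_pos (by positivity), one_div_mul_eq_div,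
          div_lt_iff₀ hN1]
        exact hs.trans hrN
      have hne := hpos _ _ (hsc k (by omega)) (hsc (k + 1) hk) hd q q' hq hq'
      have hvk : vk O q0 (N + 1) (k + 1) s = (4 * l * (q ⬝ᵥ q')) • q' := by
        show M4 (O ((((k + 1 : ℕ) : ℝ) / ((N + 1 : ℕ) : ℝ)) • s)) *ᵥ vk O q0 (N + 1) k s = _
        rw [hv, hq'.mulVec, dotProduct_smul, dotProduct_comm, smul_eq_mul, mul_assoc]
      rcases lt_or_gt_of_ne hne with h6 | h6
      · refine ⟨4 * l * -(q ⬝ᵥ q'), -q', ?_, hq'.neg, ?_⟩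
        · have : 0 < -(q ⬝ᵥ q') := by linarith
          positivity
        · rw [hvk]; module
      · exact ⟨4 * l * (q ⬝ᵥ q'), q', by positivity, hq', hvk⟩
  have hend : ∀ s : R3, ‖s‖ < r → ∃ (l : ℝ) (q : Fin 4 → ℝ), 0 < l ∧ Lf (O s) q ∧
      vk O q0 (N + 1) (N + 1) s = l • q := by
    intro s hs
    obtain ⟨l, q, hl, hq, hv⟩ := hchain s hs (N + 1) le_rfl
    rw [div_self hN1.ne', one_smul] at hq
    exact ⟨l, q, hl, hq, hv⟩
  refine ⟨fun s => nrm (vk O q0 (N + 1) (N + 1) s), ?_, ?_, ?_⟩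
  · have h7 : ∀ k, ∃ l : ℝ, 0 < l ∧ vk O q0 (N + 1) k 0 = l • q0 := by
      intro k
      induction k with
      | zero => exact ⟨1, one_pos, by rw [one_smul]; rfl⟩
      | succ k ih =>
        obtain ⟨l, hl, hv⟩ := ih
        refine ⟨4 * l, by positivity, ?_⟩
        show M4 (O ((((k + 1 : ℕ) : ℝ) / ((N + 1 : ℕ) : ℝ)) • (0 : R3))) *ᵥ vk O q0 (N + 1) k 0 = _
        rw [smul_zero, hv, hq0.mulVec, dotProduct_smul, ← nq_dot, hq0.nq]
        simp
    obtain ⟨l, hl, hv⟩ := h7 (N + 1)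
    show nrm (vk O q0 (N + 1) (N + 1) 0) = q0
    rw [hv, nrm_smul hl hq0.nq]
  · intro s hs
    obtain ⟨l, q, hl, hq, hv⟩ := hend s hs
    show Lf (O s) (nrm (vk O q0 (N + 1) (N + 1) s))
    rw [hv, nrm_smul hl hq.nq]
    exact hq
  · intro s hs
    obtain ⟨l, q, hl, hq, hv⟩ := hend s hs
    have hvs : ∀ i, ContDiffAt ℝ ∞ (fun s => vk O q0 (N + 1) (N + 1) s i) s := fun i =>
      (vk_smooth hO.smooth q0 (N + 1) (N + 1) i).contDiffAt
    have hn : nq (vk O q0 (N + 1) (N + 1) s) ≠ 0 := by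
      rw [hv]
      have : nq (l • q) = l ^ 2 * nq q := by
        simp only [nq, Pi.smul_apply, smul_eq_mul]
        ring
      rw [this, hq.nq, mul_one]
      positivity
    have hnq : ContDiffAt ℝ ∞ (fun s => nq (vk O q0 (N + 1) (N + 1) s)) s := by
      unfold nq
      exact (((((hvs 0).pow 2).add ((hvs 1).pow 2)).add ((hvs 2).pow 2)).add ((hvs 3).pow 2))
    refine contDiffAt_pi.mpr fun i => ?_
    show ContDiffAt ℝ ∞ (fun s => (Real.sqrt (nq (vk O q0 (N + 1) (N + 1) s)))⁻¹ *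
      vk O q0 (N + 1) (N + 1) s i) s
    refine ContDiffAt.mul (ContDiffAt.inv (hnq.sqrt hn) ?_) (hvs i)
    exact (Real.sqrt_pos.mpr (lt_of_le_of_ne (by unfold nq; positivity) hn.symm)).ne'

theorem dot_continuousOn {f f' : R3 → Fin 4 → ℝ} {S : Set R3} (hf : ContinuousOn f S)
    (hf' : ContinuousOn f' S) : ContinuousOn (fun s => f s ⬝ᵥ f' s) S := by
  refine continuousOn_finsetSum _ fun i _ => ?_
  exact ((continuous_apply i).comp_continuousOn hf).mul ((continuous_apply i).comp_continuousOn hf')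

theorem global_lift {O : R3 → Matrix (Fin 3) (Fin 3) ℝ} (hO : LpR O) (h1 : ∀ s, (O s)ᵀ * O s = 1)
    (h2 : ∀ s, (O s).det = 1) : ∃ q : R3 → Fin 4 → ℝ, ContDiff ℝ ∞ q ∧ ∀ s, Lf (O s) (q s) := by
  obtain ⟨q0, hq0⟩ := exists_lift (h1 0) (h2 0)
  choose f hf0 hfl hfs using fun r : ℝ => local_lift hO h1 h2 hq0 r
  have huniq : ∀ r r' : ℝ, ∀ s : R3, ‖s‖ < r → ‖s‖ < r' → f r s = f r' s := by
    intro r r' s hs hs'
    set S : Set R3 := Metric.ball (0 : R3) (min r r') with hS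
    have hpre : IsPreconnected S := (convex_ball _ _).isPreconnected
    have hmem : ∀ z ∈ S, ‖z‖ < r ∧ ‖z‖ < r' := by
      intro z hz
      rw [hS, mem_ball_zero_iff] at hz
      exact lt_min_iff.mp hz
    have hc : ContinuousOn (f r) S := fun z hz =>
      ((hfs r z (hmem z hz).1).continuousAt).continuousWithinAt
    have hc' : ContinuousOn (f r') S := fun z hz =>
      ((hfs r' z (hmem z hz).2).continuousAt).continuousWithinAt
    have hsq : EqOn ((fun z => f r z ⬝ᵥ f r' z) ^ 2) 1 S := fun z hz =>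
      ((hfl r z (hmem z hz).1).eq (hfl r' z (hmem z hz).2)).2
    have hsS : s ∈ S := by
      rw [hS, mem_ball_zero_iff]; exact lt_min hs hs'
    have h0S : (0 : R3) ∈ S := by
      rw [hS, mem_ball_zero_iff, norm_zero]
      exact lt_of_le_of_lt (norm_nonneg s) (lt_min hs hs')
    have h01 : f r 0 ⬝ᵥ f r' 0 = 1 := by
      rw [hf0, hf0, ← nq_dot, hq0.nq]
    have hone : f r s ⬝ᵥ f r' s = 1 := by
      rcases hpre.eq_one_or_eq_neg_one_of_sq_eq (dot_continuousOn hc hc') hsq with h | h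
      · exact h hsS
      · have := h h0S
        simp only [Pi.neg_apply, Pi.one_apply] at this
        rw [h01] at this
        norm_num at this
    have h3 := ((hfl r s hs).eq (hfl r' s hs')).1
    rw [h3, hone, one_smul]
  refine ⟨fun s => f (‖s‖ + 1) s, ?_, fun s => hfl _ s (lt_add_one _)⟩
  rw [contDiff_iff_contDiffAt]
  intro s
  refine (hfs (‖s‖ + 2) s (by linarith)).congr_of_eventuallyEq ?_
  have hop : IsOpen {z : R3 | ‖z‖ < ‖s‖ + 2} := isOpen_lt continuous_norm continuous_const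
  filter_upwards [hop.mem_nhds (show ‖s‖ < ‖s‖ + 2 by linarith)] with z hz
  exact huniq _ _ z (lt_add_one _) hz

/-! ### the twist -/

/-- the angle -/
noncomputable def th (a : Fin 3 → ℝ) (s : R3) : ℝ := Real.pi * (a 0 * s 0 + a 1 * s 1 + a 2 * s 2)

/-- the twisting unit complex number -/
noncomputable def cc (a : Fin 3 → ℝ) (s : R3) : Fin 4 → ℝ :=
  ![Real.cos (th a s), Real.sin (th a s), 0, 0]

theorem th_add (a : Fin 3 → ℝ) (s : R3) (k : Fin 3) :
    th a (s + Pi.single k 1) = th a s + Real.pi * a k := by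
  fin_cases k <;> simp [th] <;> ring

theorem cc_smooth (a : Fin 3 → ℝ) (i : Fin 4) : ContDiff ℝ ∞ (fun s => cc a s i) := by
  have h0 : ContDiff ℝ ∞ (th a) := by
    unfold th
    fun_prop
  fin_cases i
  · exact Real.contDiff_cos.comp h0
  · exact Real.contDiff_sin.comp h0
  · exact contDiff_const
  · exact contDiff_const

theorem cc_nq (a : Fin 3 → ℝ) (s : R3) : nq (cc a s) = 1 := by
  simp only [nq, cc, Matrix.cons_val_zero, Matrix.cons_val_one, Matrix.cons_val]
  have := Real.cos_sq_add_sin_sq (th a s)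
  linarith

theorem W_rot {a : Fin 3 → ℝ} (hR : LpR (fun s => Ph (cc a s))) :
    W (toC fun s => Ph (cc a s)) = 0 := by
  set C : Matrix (Fin 3) (Fin 3) ℂ := !![1, 0, 0; 0, 1, Complex.I; 0, 1, -Complex.I] with hC
  have hCdet : C.det ≠ 0 := by
    have h0 : C.det = -2 * Complex.I := by
      rw [hC, Matrix.det_fin_three]
      simp
      ring
    rw [h0]
    exact mul_ne_zero (by norm_num) Complex.I_ne_zero
  set z : R3 → ℂ := fun s => (Real.cos (th a s) : ℂ) + (Real.sin (th a s) : ℂ) * Complex.I with hz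
  set z' : R3 → ℂ := fun s => (Real.cos (th a s) : ℂ) - (Real.sin (th a s) : ℂ) * Complex.I with hz'
  have hzz : ∀ s, z s * z' s = 1 := by
    intro s
    have := Real.cos_sq_add_sin_sq (th a s)
    have h3 : (Real.cos (th a s) : ℂ) ^ 2 + (Real.sin (th a s) : ℂ) ^ 2 = 1 := by
      exact_mod_cast this
    simp only [hz, hz']
    linear_combination h3 - (Real.sin (th a s) : ℂ) ^ 2 * Complex.I_sq
  set dv : R3 → Fin 3 → ℂ := fun s => ![1, z s ^ 2, z' s ^ 2] with hdv
  have hint : (fun s => C * toC (fun s => Ph (cc a s)) s) =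
      fun s => Matrix.diagonal (dv s) * C := by
    funext s
    have h3 : (Real.cos (th a s) : ℂ) ^ 2 + (Real.sin (th a s) : ℂ) ^ 2 = 1 := by
      exact_mod_cast Real.cos_sq_add_sin_sq (th a s)
    have hI := Complex.I_sq
    rw [hC]
    ext i j
    rw [Matrix.diagonal_mul, Matrix.mul_apply, Fin.sum_univ_three]
    simp only [toC, Matrix.map_apply, Ph, cc, hdv, hz, hz']
    fin_cases i <;> fin_cases j <;> simp <;> first
      | linear_combination (-Complex.sin (th a s) ^ 2) * hI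
      | linear_combination (-2 * Complex.cos (th a s) * Complex.sin (th a s) -
          Complex.sin (th a s) ^ 2 * Complex.I) * hI
      | linear_combination (-2 * Complex.cos (th a s) * Complex.sin (th a s) +
          Complex.sin (th a s) ^ 2 * Complex.I) * hI
  have hR' := lpC hR
  have hCp : Lp (fun _ : R3 => C) := Lp.const hCdet
  have hdvs : ∀ i, ContDiff ℝ ∞ (fun s => dv s i) := by
    have hth : ContDiff ℝ ∞ (th a) := by
      unfold th
      fun_prop
    have hc0 : ContDiff ℝ ∞ (fun s => (Real.cos (th a s) : ℂ)) :=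
      Complex.ofRealCLM.contDiff.comp (Real.contDiff_cos.comp hth)
    have hs0 : ContDiff ℝ ∞ (fun s => (Real.sin (th a s) : ℂ)) :=
      Complex.ofRealCLM.contDiff.comp (Real.contDiff_sin.comp hth)
    intro i
    fin_cases i
    · exact contDiff_const
    · exact (hc0.add (hs0.mul contDiff_const)).pow 2
    · exact (hc0.sub (hs0.mul contDiff_const)).pow 2
  have hD : Lp (fun s => Matrix.diagonal (dv s)) := by
    have hval : ∀ s, Matrix.diagonal (dv s) = C * toC (fun s => Ph (cc a s)) s * C⁻¹ := by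
      intro s
      rw [congrFun hint s, Matrix.mul_assoc,
        Matrix.mul_nonsing_inv _ (isUnit_iff_ne_zero.mpr hCdet), Matrix.mul_one]
    refine ⟨fun i j => ?_, fun k s => ?_, fun s => ?_⟩
    · rcases eq_or_ne i j with rfl | hij
      · simp only [Matrix.diagonal_apply_eq]
        exact hdvs i
      · simp only [Matrix.diagonal_apply_ne _ hij]
        exact contDiff_const
    · rw [hval, hval, hR'.per k s]
    · rw [hval, Matrix.det_mul, Matrix.det_mul]
      refine mul_ne_zero (mul_ne_zero hCdet (hR'.inv s)) ?_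
      intro h0
      have h5 := Matrix.det_nonsing_inv_mul_det C (isUnit_iff_ne_zero.mpr hCdet)
      rw [h0, zero_mul] at h5
      exact zero_ne_one h5
  rw [← W_const_mul hR'.smooth hCdet, hint, mul _ _ _ hD hCp, W_const, add_zero]
  exact diag (Fin 3) dv

theorem Ph_smul_sq {e : ℝ} (he : e ^ 2 = 1) (q : Fin 4 → ℝ) : Ph (e • q) = Ph q := by
  have h : Ph (e • q) = e ^ 2 • Ph q := by
    ext i j
    fin_cases i <;> fin_cases j <;> simp only [Ph, Pi.smul_apply, smul_eq_mul, Matrix.smul_apply,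
      Matrix.of_apply, Matrix.cons_val', Matrix.cons_val_zero, Matrix.cons_val_one,
      Matrix.cons_val, Fin.zero_eta, Fin.mk_one, Fin.reduceFinMk, Fin.isValue] <;> ring
  rw [h, he, one_smul]

theorem ad : S_AD := by
  intro O hO h1 h2
  obtain ⟨q, hqs, hq⟩ := global_lift hO h1 h2
  have hqc : Continuous q := hqs.continuous
  -- signs
  have hsign : ∀ k : Fin 3, ∃ e : ℝ, (e = 1 ∨ e = -1) ∧ ∀ s, q (s + Pi.single k 1) = e • q s := by
    intro k
    have hl : ∀ s, Lf (O s) (q (s + Pi.single k 1)) := fun s => by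
      have := hq (s + Pi.single k 1)
      rwa [hO.per k s] at this
    have hc : ContinuousOn (fun s => q s ⬝ᵥ q (s + Pi.single k 1)) univ :=
      dot_continuousOn hqc.continuousOn (hqc.comp (continuous_id.add continuous_const)).continuousOn
    have hsq : EqOn ((fun s => q s ⬝ᵥ q (s + Pi.single k 1)) ^ 2) 1 univ := fun s _ =>
      ((hq s).eq (hl s)).2
    rcases isPreconnected_univ.eq_one_or_eq_neg_one_of_sq_eq hc hsq with h | h
    · refine ⟨1, Or.inl rfl, fun s => ?_⟩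
      have h3 : q s ⬝ᵥ q (s + Pi.single k 1) = 1 := h (mem_univ s)
      rw [((hq s).eq (hl s)).1, h3]
    · refine ⟨-1, Or.inr rfl, fun s => ?_⟩
      have h3 : q s ⬝ᵥ q (s + Pi.single k 1) = -1 := h (mem_univ s)
      rw [((hq s).eq (hl s)).1, h3]
  choose e he heq using hsign
  have he2 : ∀ k, e k ^ 2 = 1 := fun k => by
    rcases he k with h | h <;> rw [h] <;> norm_num
  set a : Fin 3 → ℝ := fun k => (1 - e k) / 2 with ha
  have hcc : ∀ k s, cc a (s + Pi.single k 1) = e k • cc a s := by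
    intro k s
    have h3 : Real.cos (th a s + Real.pi * a k) = e k * Real.cos (th a s) ∧
        Real.sin (th a s + Real.pi * a k) = e k * Real.sin (th a s) := by
      rcases he k with h | h
      · have : a k = 0 := by simp only [ha, h]; norm_num
        rw [this, h]
        simp
      · have : a k = 1 := by simp only [ha, h]; norm_num
        rw [this, h, mul_one, Real.cos_add_pi, Real.sin_add_pi]
        simp
    funext i
    simp only [cc, th_add, Pi.smul_apply, smul_eq_mul]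
    fin_cases i
    · exact h3.1
    · exact h3.2
    · simp
    · simp
  set p : R3 → Fin 4 → ℝ := fun s => LL (q s) *ᵥ cc a s with hp
  have hqsi : ∀ i, ContDiff ℝ ∞ (fun s => q s i) := fun i => contDiff_pi.mp hqs i
  have hnp : ∀ s, nq (p s) = 1 := fun s => by
    rw [hp]
    simp only
    rw [nq_mul, (hq s).nq, cc_nq, mul_one]
  have hLs : ∀ i j, ContDiff ℝ ∞ (fun s => LL (q s) i j) := by
    intro i j
    fin_cases i <;> fin_cases j <;> simp only [LL, Matrix.of_apply, Matrix.cons_val',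
      Matrix.cons_val_zero, Matrix.cons_val_one, Matrix.cons_val, Fin.zero_eta, Fin.mk_one,
      Fin.reduceFinMk] <;> first | exact hqsi _ | exact (hqsi _).neg
  have hVp : Vp p := by
    refine ⟨contDiff_pi.mpr fun i => ?_, fun k s => ?_, fun s h => ?_⟩
    · simp only [hp, Matrix.mulVec, dotProduct]
      exact ContDiff.sum fun j _ => (hLs i j).mul (cc_smooth a j)
    · simp only [hp, heq, hcc]
      have h4 : LL (e k • q s) = e k • LL (q s) := by
        ext i j
        fin_cases i <;> fin_cases j <;> simp [LL]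
      rw [h4, Matrix.smul_mulVec, Matrix.mulVec_smul, smul_smul, ← pow_two, he2, one_smul]
    · have h5 := hnp s
      rw [h] at h5
      simp [nq] at h5
  refine ⟨p, hVp, ?_⟩
  rw [← W_Ph hVp hnp]
  have hccR : LpR (fun s => Ph (cc a s)) := by
    refine ⟨fun i j => ?_, fun k s => ?_, fun s => ?_⟩
    · have hcs := cc_smooth a
      fin_cases i <;> fin_cases j <;> simp only [Ph, Matrix.of_apply, Matrix.cons_val',
        Matrix.cons_val_zero, Matrix.cons_val_one, Matrix.cons_val, Fin.zero_eta, Fin.mk_one,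
        Fin.reduceFinMk] <;> fun_prop (disch := exact hcs _)
    · simp only [hcc]
      exact Ph_smul_sq (he2 k) _
    · rw [Ph_det, cc_nq]; norm_num
  have hprod : (toC fun s => Ph (p s)) = fun s => toC O s * toC (fun s => Ph (cc a s)) s := by
    funext s
    show (Ph (p s)).map Complex.ofReal = (O s).map Complex.ofReal *
      (Ph (cc a s)).map Complex.ofReal
    rw [← mapC, (hq s).ph, ← Ph_mul]
  rw [hprod, mul _ _ _ (lpC hO) (lpC hccR), W_rot hccR, add_zero]

end Pool.Agent.W366.LT
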