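import Mathlib
import Pool.Agent.W366.LT.Quat

/-! LT-COL: column reduction for real matrix loops. -/

set_option autoImplicit false

open scoped ContDiff Matrix Topology
open Set MeasureTheory

namespace Pool.Agent.W366.LT

open Pool.Agent.W630.LT

section lin

variable {n : ℕ}

theorem dp_pos {x : Fin n → ℝ} (hx : x ≠ 0) : 0 < x ⬝ᵥ x := by
  have h1 : 0 ≤ x ⬝ᵥ x := Finset.sum_nonneg fun i _ => mul_self_nonneg _
  exact lt_of_le_of_ne h1 fun h => hx (dotProduct_self_eq_zero.mp h.symm)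

/-- the vector between two non antipodal directions -/
noncomputable def bis (u x : Fin n → ℝ) : Fin n → ℝ :=
  Real.sqrt (x ⬝ᵥ x) • u + Real.sqrt (u ⬝ᵥ u) • x

theorem bis_pos {u x : Fin n → ℝ} (hu : u ≠ 0) (hx : x ≠ 0)
    (h : ∀ a b : ℝ, 0 < a → 0 < b → a • u + b • x ≠ 0) :
    0 < bis u x ⬝ᵥ u ∧ 0 < bis u x ⬝ᵥ x := by
  have hp := dp_pos hu
  have hq := dp_pos hx
  have hsp := Real.sqrt_pos.mpr hp
  have hsq := Real.sqrt_pos.mpr hq
  have hp2 : Real.sqrt (u ⬝ᵥ u) * Real.sqrt (u ⬝ᵥ u) = u ⬝ᵥ u := Real.mul_self_sqrt hp.le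
  have hq2 : Real.sqrt (x ⬝ᵥ x) * Real.sqrt (x ⬝ᵥ x) = x ⬝ᵥ x := Real.mul_self_sqrt hq.le
  have hW := dp_pos (h _ _ hsq hsp)
  have h1 : bis u x ⬝ᵥ u = Real.sqrt (x ⬝ᵥ x) * (u ⬝ᵥ u) + Real.sqrt (u ⬝ᵥ u) * (x ⬝ᵥ u) := by
    simp only [bis, add_dotProduct, smul_dotProduct, smul_eq_mul]
  have h2 : bis u x ⬝ᵥ x = Real.sqrt (x ⬝ᵥ x) * (u ⬝ᵥ x) + Real.sqrt (u ⬝ᵥ u) * (x ⬝ᵥ x) := by
    simp only [bis, add_dotProduct, smul_dotProduct, smul_eq_mul]
  simp only [add_dotProduct, smul_dotProduct, dotProduct_add, dotProduct_smul, smul_eq_mul] at hW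
  rw [dotProduct_comm x u] at h1 hW
  rw [h1, h2]
  set p := Real.sqrt (u ⬝ᵥ u) with hp'
  set q := Real.sqrt (x ⬝ᵥ x) with hq'
  rw [← hp2, ← hq2] at *
  have h3 : 0 < (2 * (p * q)) * (p * q + u ⬝ᵥ x) := by nlinarith
  have h4 : 0 < p * q + u ⬝ᵥ x := (mul_pos_iff_of_pos_left (by positivity)).mp h3
  constructor
  · have : q * (p * p) + p * (u ⬝ᵥ x) = p * (p * q + u ⬝ᵥ x) := by ring
    rw [this]; positivity
  · have : q * (u ⬝ᵥ x) + p * (q * q) = q * (p * q + u ⬝ᵥ x) := by ring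
    rw [this]; positivity

/-- the rank one modification moving `u` to `x` -/
noncomputable def PP (u x w : Fin n → ℝ) : Matrix (Fin n) (Fin n) ℝ :=
  1 + Matrix.vecMulVec (x - u) ((w ⬝ᵥ u)⁻¹ • w)

theorem PP_det {u x w : Fin n → ℝ} (h : w ⬝ᵥ u ≠ 0) : (PP u x w).det = (w ⬝ᵥ x) / (w ⬝ᵥ u) := by
  unfold PP
  rw [Matrix.vecMulVec_eq Unit, Matrix.det_one_add_replicateCol_mul_replicateRow, smul_dotProduct,
    dotProduct_sub, smul_eq_mul]
  field_simp
  ring

theorem PP_mulVec {u x w : Fin n → ℝ} (h : w ⬝ᵥ u ≠ 0) : PP u x w *ᵥ u = x := by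
  unfold PP
  rw [Matrix.add_mulVec, Matrix.one_mulVec, Matrix.vecMulVec_mulVec, smul_dotProduct, smul_eq_mul,
    inv_mul_cancel₀ h]
  simp

end lin

theorem col : S_COL := by
  intro N R hN hR
  set u : R3 → Fin (N + 1) → ℝ := fun s i => R s i 0 with hu
  have hus : ∀ i, ContDiff ℝ ∞ (fun s => u s i) := fun i => hR.smooth i 0
  have huS : ContDiff ℝ ∞ u := contDiff_pi.mpr hus
  have hune : ∀ s, u s ≠ 0 := fun s h =>
    hR.inv s (Matrix.det_eq_zero_of_column_eq_zero 0 fun i => congrFun h i)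
  have huper : ∀ k s, u (s + Pi.single k 1) = u s := fun k s => by simp only [hu, hR.per k s]
  -- a vector outside the cone
  obtain ⟨v, hv1, hv0⟩ : ∃ v : Fin (N + 1) → ℝ, (∀ (l : ℝ) (s : R3), v ≠ -(l • u s)) ∧
      0 < v 0 := by
    have hF : ContDiff ℝ 1 (fun z : ℝ × R3 => -(z.1 • u z.2)) := by
      have h1 : ContDiff ℝ 1 u := huS.of_le (by exact_mod_cast le_top)
      exact (contDiff_fst.smul (h1.comp contDiff_snd)).neg
    have hdim : Module.finrank ℝ (ℝ × R3) < Module.finrank ℝ (Fin (N + 1) → ℝ) := by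
      rw [Module.finrank_prod, Module.finrank_self, Module.finrank_fin_fun, Module.finrank_fin_fun]
      omega
    have hd := hF.dense_compl_range_of_finrank_lt_finrank hdim
    have hop : IsOpen {v : Fin (N + 1) → ℝ | 0 < v 0} :=
      isOpen_lt continuous_const (continuous_apply 0)
    obtain ⟨v, hv0, hv1⟩ := hd.inter_open_nonempty _ hop ⟨fun _ => 1, by simp⟩
    exact ⟨v, fun l s h => hv1 ⟨(l, s), h.symm⟩, hv0⟩
  set x : ℝ → R3 → Fin (N + 1) → ℝ := fun t s => (1 - t) • u s + t • v with hx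
  have hne : ∀ t ∈ Icc (0 : ℝ) 1, ∀ s, ∀ a b : ℝ, 0 ≤ a → 0 < b → a • u s + b • x t s ≠ 0 := by
    intro t ht s a b ha hb h
    have h1 : a • u s + b • x t s = (a + b * (1 - t)) • u s + (b * t) • v := by
      simp only [hx]
      module
    rw [h1] at h
    rcases eq_or_lt_of_le ht.1 with h0 | h0
    · rw [← h0] at h
      simp only [sub_zero, mul_one, mul_zero, zero_smul, add_zero] at h
      rcases smul_eq_zero.mp h with h2 | h2
      · linarith
      · exact hune s h2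
    · apply hv1 ((b * t)⁻¹ * (a + b * (1 - t))) s
      have h2 : (b * t) • v = -((a + b * (1 - t)) • u s) := (neg_eq_of_add_eq_zero_right h).symm
      have hbt : b * t ≠ 0 := (mul_pos hb h0).ne'
      rw [mul_smul, ← smul_neg, ← h2, smul_smul, inv_mul_cancel₀ hbt, one_smul]
  have hxne : ∀ t ∈ Icc (0 : ℝ) 1, ∀ s, x t s ≠ 0 := by
    intro t ht s h
    apply hne t ht s 0 1 le_rfl one_pos
    rw [h]; simp
  have hpos : ∀ t ∈ Icc (0 : ℝ) 1, ∀ s, 0 < bis (u s) (x t s) ⬝ᵥ u s ∧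
      0 < bis (u s) (x t s) ⬝ᵥ x t s := fun t ht s =>
    bis_pos (hune s) (hxne t ht s) fun a b ha hb => hne t ht s a b ha.le hb
  set Rt : ℝ → R3 → Matrix (Fin (N + 1)) (Fin (N + 1)) ℝ := fun t s =>
    PP (u s) (x t s) (bis (u s) (x t s)) * R s with hRt
  have hdet : ∀ t ∈ Icc (0 : ℝ) 1, ∀ s, (Rt t s).det ≠ 0 := by
    intro t ht s
    obtain ⟨h1, h2⟩ := hpos t ht s
    simp only [hRt]
    rw [Matrix.det_mul, PP_det h1.ne']
    exact mul_ne_zero (div_pos h2 h1).ne' (hR.inv s)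
  have hentry : ∀ t s i j, Rt t s i j = ∑ k, ((1 : Matrix (Fin (N + 1)) (Fin (N + 1)) ℝ) i k +
      (x t s i - u s i) * ((bis (u s) (x t s) ⬝ᵥ u s)⁻¹ * bis (u s) (x t s) k)) * R s k j := by
    intro t s i j
    simp only [hRt, Matrix.mul_apply, PP, Matrix.add_apply, Matrix.vecMulVec_apply, Pi.sub_apply,
      Pi.smul_apply, smul_eq_mul]
  have hlp : ∀ t ∈ Icc (0 : ℝ) 1, LpR (Rt t) := by
    intro t ht
    have hxs : ∀ i, ContDiff ℝ ∞ (fun s => x t s i) := fun i => by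
      show ContDiff ℝ ∞ (fun s => (1 - t) * u s i + t * v i)
      exact (contDiff_const.mul (hus i)).add contDiff_const
    have hp : ContDiff ℝ ∞ (fun s => Real.sqrt (u s ⬝ᵥ u s)) := by
      refine ContDiff.sqrt ?_ fun s => (dp_pos (hune s)).ne'
      exact ContDiff.sum fun i _ => (hus i).mul (hus i)
    have hq : ContDiff ℝ ∞ (fun s => Real.sqrt (x t s ⬝ᵥ x t s)) := by
      refine ContDiff.sqrt ?_ fun s => (dp_pos (hxne t ht s)).ne'
      exact ContDiff.sum fun i _ => (hxs i).mul (hxs i)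
    have hb : ∀ i, ContDiff ℝ ∞ (fun s => bis (u s) (x t s) i) := fun i => by
      show ContDiff ℝ ∞ (fun s => Real.sqrt (x t s ⬝ᵥ x t s) * u s i +
        Real.sqrt (u s ⬝ᵥ u s) * x t s i)
      exact (hq.mul (hus i)).add (hp.mul (hxs i))
    have hd : ContDiff ℝ ∞ (fun s => (bis (u s) (x t s) ⬝ᵥ u s)⁻¹) := by
      refine ContDiff.inv ?_ fun s => (hpos t ht s).1.ne'
      exact ContDiff.sum fun i _ => (hb i).mul (hus i)
    refine ⟨fun i j => ?_, fun k s => ?_, hdet t ht⟩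
    · simp only [hentry]
      exact ContDiff.sum fun k _ => (contDiff_const.add (((hxs i).sub (hus i)).mul
        (hd.mul (hb k)))).mul (hR.smooth k j)
    · simp only [hRt, hx, huper k s, hR.per k s]
  have hcont : ∀ i j, ContinuousOn (fun p : ℝ × R3 => Rt p.1 p.2 i j)
      (Icc (0 : ℝ) 1 ×ˢ univ) := by
    intro i j
    have huc : ∀ i, Continuous (fun p : ℝ × R3 => u p.2 i) := fun i =>
      (hus i).continuous.comp continuous_snd
    have hxc : ∀ i, Continuous (fun p : ℝ × R3 => x p.1 p.2 i) := fun i => by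
      show Continuous (fun p : ℝ × R3 => (1 - p.1) * u p.2 i + p.1 * v i)
      exact ((continuous_const.sub continuous_fst).mul (huc i)).add
        (continuous_fst.mul continuous_const)
    have hp : Continuous (fun p : ℝ × R3 => Real.sqrt (u p.2 ⬝ᵥ u p.2)) := by
      refine Real.continuous_sqrt.comp ?_
      exact continuous_finsetSum _ fun i _ => (huc i).mul (huc i)
    have hq : Continuous (fun p : ℝ × R3 => Real.sqrt (x p.1 p.2 ⬝ᵥ x p.1 p.2)) := by
      refine Real.continuous_sqrt.comp ?_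
      exact continuous_finsetSum _ fun i _ => (hxc i).mul (hxc i)
    have hb : ∀ i, Continuous (fun p : ℝ × R3 => bis (u p.2) (x p.1 p.2) i) := fun i => by
      show Continuous (fun p : ℝ × R3 => Real.sqrt (x p.1 p.2 ⬝ᵥ x p.1 p.2) * u p.2 i +
        Real.sqrt (u p.2 ⬝ᵥ u p.2) * x p.1 p.2 i)
      exact (hq.mul (huc i)).add (hp.mul (hxc i))
    have hd : ContinuousOn (fun p : ℝ × R3 => (bis (u p.2) (x p.1 p.2) ⬝ᵥ u p.2)⁻¹)
        (Icc (0 : ℝ) 1 ×ˢ univ) := by
      refine ContinuousOn.inv₀ ?_ fun p hp => (hpos p.1 hp.1 p.2).1.ne'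
      exact (continuous_finsetSum _ fun i _ => (hb i).mul (huc i)).continuousOn
    simp only [hentry]
    refine continuousOn_finsetSum _ fun k _ => ?_
    exact (continuousOn_const.add (((hxc i).sub (huc i)).continuousOn.mul
      (hd.mul (hb k).continuousOn))).mul
      ((hR.smooth k j).continuous.comp continuous_snd).continuousOn
  have hW := hom (Fin (N + 1)) (fun t s => toC (Rt t) s) (fun t ht => lpC (hlp t ht))
    (fun i j => Complex.continuous_ofReal.comp_continuousOn (hcont i j))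
  have h0 : Rt 0 = R := by
    funext s
    simp only [hRt, hx, sub_zero, one_smul, zero_smul, add_zero, PP, sub_self]
    have : Matrix.vecMulVec (0 : Fin (N + 1) → ℝ)
      ((bis (u s) (u s) ⬝ᵥ u s)⁻¹ • bis (u s) (u s)) = 0 := by
      ext i j
      simp [Matrix.vecMulVec_apply]
    rw [this, add_zero, Matrix.one_mul]
  have h1m : (1 : ℝ) ∈ Icc (0 : ℝ) 1 := ⟨zero_le_one, le_rfl⟩
  have hcol1 : ∀ s i, Rt 1 s i 0 = v i := by
    intro s i
    have h2 := PP_mulVec (x := x 1 s) (hpos 1 h1m s).1.ne'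
    have h3 : Rt 1 s i 0 = (PP (u s) (x 1 s) (bis (u s) (x 1 s)) *ᵥ u s) i := rfl
    rw [h3, h2]
    simp [hx]
  -- the constant matrix
  set E0 : Fin (N + 1) → ℝ := Pi.single 0 1 with hE0
  have hEv : E0 ⬝ᵥ v = v 0 := by rw [hE0, single_one_dotProduct]
  have hEE : E0 ⬝ᵥ E0 = 1 := by rw [hE0, single_one_dotProduct, Pi.single_eq_same]
  have hEv0 : E0 ⬝ᵥ v ≠ 0 := by rw [hEv]; exact hv0.ne'
  set C : Matrix (Fin (N + 1)) (Fin (N + 1)) ℝ := PP v E0 E0 with hC
  have hCdet : C.det ≠ 0 := by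
    rw [hC, PP_det hEv0, hEE, hEv]
    exact (div_pos one_pos hv0).ne'
  have hCv : C *ᵥ v = E0 := PP_mulVec hEv0
  have hCR : LpR (fun s => C * Rt 1 s) := by
    have hl := hlp 1 h1m
    refine ⟨fun i j => ?_, fun k s => ?_, fun s => ?_⟩
    · simp only [Matrix.mul_apply]
      exact ContDiff.sum fun l _ => contDiff_const.mul (hl.smooth l j)
    · simp only [hl.per k s]
    · rw [Matrix.det_mul]
      exact mul_ne_zero hCdet (hl.inv s)
  have hcol2 : ∀ s (i : Fin N), (C * Rt 1 s) i.succ 0 = 0 := by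
    intro s i
    have h4 : (C * Rt 1 s) i.succ 0 = (C *ᵥ v) i.succ := by
      rw [Matrix.mul_apply, Matrix.mulVec, dotProduct]
      exact Finset.sum_congr rfl fun k _ => by rw [hcol1]
    rw [h4, hCv, hE0, Pi.single_eq_of_ne (Fin.succ_ne_zero i)]
  obtain ⟨h5, h6⟩ := red hCR hcol2
  refine ⟨_, h5, ?_⟩
  rw [← h6]
  have h7 : toC (fun s => C * Rt 1 s) = fun s => C.map Complex.ofReal * toC (Rt 1) s := by
    funext s
    exact Matrix.map_mul (f := Complex.ofRealHom) (L := C) (M := Rt 1 s)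
  have hCC : (C.map Complex.ofReal).det ≠ 0 := by
    have h8 : (C.map Complex.ofReal).det = (C.det : ℂ) :=
      (RingHom.map_det Complex.ofRealHom C).symm
    rw [h8]
    exact Complex.ofReal_ne_zero.mpr hCdet
  rw [h7, W_const_mul (lpC (hlp 1 h1m)).smooth hCC, ← h0]
  exact hW

end Pool.Agent.W366.LT
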